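import Pool.Agent.Run7.h141.ND1.Iface

/-!
# Project ND1 of helper141, piece CUR (helper352)
-/

set_option autoImplicit false

namespace Run7.h352.ND1

open Set Filter Topology MeasureTheory Run7.h141.ND1
open scoped ContDiff

/-- the square of the positive part -/
noncomputable def gg (u : ℝ) : ℝ := (max 0 u) ^ 2

theorem gg_est (u h : ℝ) : |gg (u + h) - gg u - h * (2 * max 0 u)| ≤ h ^ 2 := by
  unfold gg
  rcases le_total 0 u with hu | hu <;> rcases le_total 0 (u + h) with hv | hv
  · rw [max_eq_right hu, max_eq_right hv, abs_le]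
    constructor <;> nlinarith [sq_nonneg h]
  · rw [max_eq_right hu, max_eq_left hv, abs_le]
    constructor <;> nlinarith [sq_nonneg h, sq_nonneg (u + h), mul_nonneg hu (neg_nonneg.2 hv)]
  · rw [max_eq_left hu, max_eq_right hv, abs_le]
    constructor <;> nlinarith [sq_nonneg h, sq_nonneg (u + h), mul_nonneg hv (neg_nonneg.2 hu)]
  · rw [max_eq_left hu, max_eq_left hv, abs_le]
    constructor <;> nlinarith [sq_nonneg h]

theorem gg_deriv (u : ℝ) : HasDerivAt gg (2 * max 0 u) u := by
  rw [hasDerivAt_iff_isLittleO_nhds_zero]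
  have h1 : (fun h : ℝ => gg (u + h) - gg u - h • (2 * max 0 u)) =O[𝓝 0] fun h : ℝ => h ^ 2 := by
    refine Asymptotics.IsBigO.of_bound 1 (Eventually.of_forall fun h => ?_)
    rw [one_mul, Real.norm_eq_abs, Real.norm_eq_abs, abs_of_nonneg (sq_nonneg h), smul_eq_mul]
    exact gg_est u h
  have h2 : (fun h : ℝ => h ^ 2) =o[𝓝 0] fun h : ℝ => h := by
    have := Asymptotics.isLittleO_pow_pow (𝕜 := ℝ) (m := 1) (n := 2) (by norm_num)
    simpa using this
  exact h1.trans_isLittleO h2

theorem gg_c1 : ContDiff ℝ 1 gg := by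
  rw [contDiff_one_iff_deriv]
  refine ⟨fun u => (gg_deriv u).differentiableAt, ?_⟩
  have : deriv gg = fun u => 2 * max 0 u := funext fun u => (gg_deriv u).deriv
  rw [this]
  fun_prop

theorem cur_eq (P v : ℂ) (t : ℝ) : cur P v t = P + v * ((Real.cos (2 * Real.pi * t) : ℂ) +
    ((gg (Real.sin (2 * Real.pi * t) + 1 / 2) : ℝ) : ℂ) * Complex.I) := rfl

theorem cur_hd (P v : ℂ) (t : ℝ) : HasDerivAt (cur P v)
    (v * (((-Real.sin (2 * Real.pi * t) * (2 * Real.pi) : ℝ) : ℂ) +
      ((2 * max 0 (Real.sin (2 * Real.pi * t) + 1 / 2) *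
        (Real.cos (2 * Real.pi * t) * (2 * Real.pi)) : ℝ) : ℂ) * Complex.I)) t := by
  have h0 : HasDerivAt (fun t : ℝ => 2 * Real.pi * t) (2 * Real.pi) t := by
    simpa using (hasDerivAt_id t).const_mul (2 * Real.pi)
  have h1 : HasDerivAt (fun t : ℝ => Real.cos (2 * Real.pi * t))
      (-Real.sin (2 * Real.pi * t) * (2 * Real.pi)) t := h0.cos
  have h2 : HasDerivAt (fun t : ℝ => Real.sin (2 * Real.pi * t) + 1 / 2)
      (Real.cos (2 * Real.pi * t) * (2 * Real.pi)) t := h0.sin.add_const _
  have h3 : HasDerivAt (fun t : ℝ => gg (Real.sin (2 * Real.pi * t) + 1 / 2))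
      (2 * max 0 (Real.sin (2 * Real.pi * t) + 1 / 2) *
        (Real.cos (2 * Real.pi * t) * (2 * Real.pi))) t :=
    (gg_deriv _).comp t h2
  have h4 := ((h1.ofReal_comp.add (h3.ofReal_comp.mul_const Complex.I)).const_mul v).const_add P
  exact h4

/-- CUR -/
theorem t_CUR : S_CUR := by
  intro P v hv
  have hpi := Real.pi_pos
  have hre : ∀ t, ((Real.cos (2 * Real.pi * t) : ℂ) +
      ((gg (Real.sin (2 * Real.pi * t) + 1 / 2) : ℝ) : ℂ) * Complex.I).re =
      Real.cos (2 * Real.pi * t) := by
    intro t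
    rw [Complex.add_re, Complex.re_ofReal_mul, Complex.I_re, mul_zero, add_zero, Complex.ofReal_re]
  have him : ∀ t, ((Real.cos (2 * Real.pi * t) : ℂ) +
      ((gg (Real.sin (2 * Real.pi * t) + 1 / 2) : ℝ) : ℂ) * Complex.I).im =
      gg (Real.sin (2 * Real.pi * t) + 1 / 2) := by
    intro t
    rw [Complex.add_im, Complex.im_ofReal_mul, Complex.I_im, mul_one, Complex.ofReal_im, zero_add]
  refine ⟨?_, ?_, ?_, ?_, ?_, ?_⟩
  · have e1 : ContDiff ℝ 1 fun t : ℝ => ((Real.cos (2 * Real.pi * t) : ℝ) : ℂ) :=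
      Complex.ofRealCLM.contDiff.comp (Real.contDiff_cos.comp (by fun_prop))
    have e2 : ContDiff ℝ 1 fun t : ℝ => Real.sin (2 * Real.pi * t) + 1 / 2 :=
      (Real.contDiff_sin.comp (by fun_prop)).add contDiff_const
    have e3 : ContDiff ℝ 1 fun t : ℝ =>
        ((gg (Real.sin (2 * Real.pi * t) + 1 / 2) : ℝ) : ℂ) :=
      Complex.ofRealCLM.contDiff.comp (gg_c1.comp e2)
    exact contDiff_const.add (contDiff_const.mul (e1.add (e3.mul contDiff_const)))
  · intro t
    rw [(cur_hd P v t).deriv]
    intro h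
    have h1 := (mul_eq_zero.1 h).resolve_left hv
    have h2 := congrArg Complex.re h1
    have h3 := congrArg Complex.im h1
    rw [Complex.add_re, Complex.re_ofReal_mul, Complex.I_re, mul_zero, add_zero,
      Complex.ofReal_re, Complex.zero_re] at h2
    rw [Complex.add_im, Complex.im_ofReal_mul, Complex.I_im, mul_one, Complex.ofReal_im,
      zero_add, Complex.zero_im] at h3
    have h4 : Real.sin (2 * Real.pi * t) = 0 := by
      rcases mul_eq_zero.1 h2 with h | h
      · linarith
      · exact absurd h (by positivity)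
    rw [h4, zero_add, max_eq_right (by norm_num : (0 : ℝ) ≤ 1 / 2)] at h3
    have h5 : Real.cos (2 * Real.pi * t) = 0 := by
      rcases mul_eq_zero.1 h3 with h | h
      · norm_num at h
      · rcases mul_eq_zero.1 h with h | h
        · exact h
        · exact absurd h (by positivity)
    have h6 := Real.sin_sq_add_cos_sq (2 * Real.pi * t)
    rw [h4, h5] at h6
    norm_num at h6
  · intro t
    rw [cur_eq, cur_eq]
    have h1 : 2 * Real.pi * (t + 1) = 2 * Real.pi * t + 2 * Real.pi := by ring
    rw [h1, Real.cos_add_two_pi, Real.sin_add_two_pi]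
  · intro s hs t ht h
    rw [cur_eq, cur_eq] at h
    have h1 := mul_left_cancel₀ hv (add_left_cancel h)
    have h2 := congrArg Complex.re h1
    have h3 := congrArg Complex.im h1
    rw [hre, hre] at h2
    rw [him, him] at h3
    have h4 : Real.sin (2 * Real.pi * s) = Real.sin (2 * Real.pi * t) := by
      have h5 := Real.sin_sq_add_cos_sq (2 * Real.pi * s)
      have h6 := Real.sin_sq_add_cos_sq (2 * Real.pi * t)
      rw [h2] at h5
      have h7 : Real.sin (2 * Real.pi * s) ^ 2 = Real.sin (2 * Real.pi * t) ^ 2 := by linarith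
      rcases sq_eq_sq_iff_eq_or_eq_neg.1 h7 with h8 | h8
      · exact h8
      · rw [h8] at h3 ⊢
        generalize Real.sin (2 * Real.pi * t) = σ at h3 ⊢
        unfold gg at h3
        rcases lt_trichotomy σ 0 with h9 | h9 | h9
        · exfalso
          rw [max_eq_right (by linarith : (0 : ℝ) ≤ -σ + 1 / 2)] at h3
          rcases le_total 0 (σ + 1 / 2) with h10 | h10
          · rw [max_eq_right h10] at h3
            nlinarith
          · rw [max_eq_left h10] at h3
            nlinarith
        · rw [h9, neg_zero]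
        · exfalso
          rw [max_eq_right (by linarith : (0 : ℝ) ≤ σ + 1 / 2)] at h3
          rcases le_total 0 (-σ + 1 / 2) with h10 | h10
          · rw [max_eq_right h10] at h3
            nlinarith
          · rw [max_eq_left h10] at h3
            nlinarith
    have h5 : Real.cos (2 * Real.pi * s - 2 * Real.pi * t) = 1 := by
      rw [Real.cos_sub, h2, h4]
      have := Real.sin_sq_add_cos_sq (2 * Real.pi * t)
      nlinarith
    obtain ⟨n, hn⟩ := (Real.cos_eq_one_iff _).1 h5
    have h6 : (n : ℝ) = s - t := by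
      have h7 : (2 * Real.pi) * ((n : ℝ) - (s - t)) = 0 := by linarith
      rcases mul_eq_zero.1 h7 with h8 | h8
      · exact absurd h8 (by positivity)
      · linarith
    have h7 : (n : ℝ) < 1 := by rw [h6]; linarith [hs.2, ht.1]
    have h8 : (-1 : ℝ) < n := by rw [h6]; linarith [hs.1, ht.2]
    have h9 : n < 1 := by exact_mod_cast h7
    have h10 : -1 < n := by exact_mod_cast h8
    have h11 : n = 0 := by omega
    rw [h11] at h6
    push_cast at h6
    linarith
  · intro t
    rw [cur_eq, add_sub_cancel_left, norm_mul, mul_comm]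
    refine mul_le_mul_of_nonneg_right ?_ (norm_nonneg v)
    have h1 : ‖(Real.cos (2 * Real.pi * t) : ℂ) +
        ((gg (Real.sin (2 * Real.pi * t) + 1 / 2) : ℝ) : ℂ) * Complex.I‖ ^ 2 ≤ 3 ^ 2 := by
      rw [Complex.sq_norm, Complex.normSq_apply, hre, him]
      have h2 := Real.cos_le_one (2 * Real.pi * t)
      have h3 := Real.neg_one_le_cos (2 * Real.pi * t)
      have h4 : 0 ≤ max 0 (Real.sin (2 * Real.pi * t) + 1 / 2) := le_max_left _ _
      have h5 : max 0 (Real.sin (2 * Real.pi * t) + 1 / 2) ≤ 3 / 2 :=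
        max_le (by norm_num) (by linarith [Real.sin_le_one (2 * Real.pi * t)])
      have h6 : gg (Real.sin (2 * Real.pi * t) + 1 / 2) ≤ 9 / 4 := by
        unfold gg
        nlinarith
      have h7 : 0 ≤ gg (Real.sin (2 * Real.pi * t) + 1 / 2) := sq_nonneg _
      nlinarith
    exact le_of_sq_le_sq h1 (by norm_num)
  · intro x hx
    have hx' := abs_le.1 hx
    refine ⟨-Real.arccos x / (2 * Real.pi), ?_⟩
    have h1 : 2 * Real.pi * (-Real.arccos x / (2 * Real.pi)) = -Real.arccos x := by
      field_simp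
    rw [cur_eq, h1, Real.cos_neg, Real.sin_neg, Real.cos_arccos (by linarith) (by linarith),
      Real.sin_arccos]
    have h2 : (1 / 2 : ℝ) ≤ Real.sqrt (1 - x ^ 2) := by
      refine Real.le_sqrt_of_sq_le ?_
      nlinarith
    have h3 : gg (-Real.sqrt (1 - x ^ 2) + 1 / 2) = 0 := by
      unfold gg
      rw [max_eq_left (by linarith)]
      norm_num
    rw [h3, Complex.ofReal_zero, zero_mul, add_zero, mul_comm]

end Run7.h352.ND1
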